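import Pool.Agent.Helper60.GM.Defs

/-!
# Project GM: the numerical inequalities of case B and of the bad arcs
-/

open MeasureTheory Real Set Filter Topology

set_option autoImplicit false

namespace Pool.Agent.Helper60.GM

open Pool.Agent.Helper60.RT (R2 cn FR sp Pr prs ctr lf2 ln2)

private noncomputable def F77 (X N : ℝ) : ℝ := N ^ 12 + N ^ 15 * X ^ (-(1 / 3) : ℝ)

private theorem F77_one {X N : ℝ} (hX : 1 ≤ X) (hN : 1 ≤ N) : 1 ≤ F77 X N := by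
  unfold F77
  have h1 : 1 ≤ N ^ 12 := one_le_pow₀ hN
  have h2 : 0 ≤ N ^ 15 * X ^ (-(1 / 3) : ℝ) := by positivity
  linarith

private theorem mono77 {X N : ℝ} (hX : 1 ≤ X) (hN : 1 ≤ N) {a b : ℝ}
    (h : a * log N + b * log X ≤ 12 * log N ∨ a * log N + b * log X ≤ 15 * log N - 1 / 3 * log X) :
    N ^ a * X ^ b ≤ F77 X N := by
  have hN0 : 0 < N := by linarith
  have hX0 : 0 < X := by linarith
  have e0 : N ^ a * X ^ b = exp (a * log N + b * log X) := by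
    rw [rpow_def_of_pos hN0, rpow_def_of_pos hX0, ← exp_add]
    congr 1
    ring
  have eN : ∀ n : ℕ, exp (n * log N) = N ^ n := by
    intro n
    rw [exp_nat_mul, exp_log hN0]
  have p2 : 0 ≤ N ^ 15 * X ^ (-(1 / 3) : ℝ) := by positivity
  have p1 : 0 ≤ N ^ 12 := by positivity
  rw [e0]
  rcases h with h | h
  · calc exp (a * log N + b * log X) ≤ exp (12 * log N) := exp_le_exp.2 h
      _ = N ^ 12 := by exact_mod_cast eN 12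
      _ ≤ F77 X N := by
        unfold F77
        linarith
  · calc exp (a * log N + b * log X) ≤ exp (15 * log N - 1 / 3 * log X) := exp_le_exp.2 h
      _ = N ^ 15 * X ^ (-(1 / 3) : ℝ) := by
        rw [sub_eq_add_neg, exp_add]
        congr 1
        · exact_mod_cast eN 15
        · rw [rpow_def_of_pos hX0]
          congr 1
          ring
      _ ≤ F77 X N := by
        unfold F77
        linarith

private theorem rw77 {X N : ℝ} (hN : 0 < N) (n : ℕ) (a c : ℝ) : N ^ n * (N ^ a * X ^ c) = N ^ (n + a) * X ^ c := by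
  rw [← mul_assoc, rpow_add hN, rpow_natCast]

private theorem rwp77 {X N : ℝ} (hX : 0 < X) (hN : 0 < N) (n : ℕ) (a c : ℝ) : (N ^ a * X ^ c) ^ n = N ^ (a * n) * X ^ (c * n) := by
  rw [mul_pow, ← rpow_natCast, ← rpow_natCast, ← rpow_mul hN.le, ← rpow_mul hX.le]

private theorem rwm77 {X N : ℝ} (hX : 0 < X) (hN : 0 < N) (a c a' c' : ℝ) : (N ^ a * X ^ c) * (N ^ a' * X ^ c') = N ^ (a + a') * X ^ (c + c') := by
  rw [rpow_add hN, rpow_add hX]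
  ring

/-- the numerical inequality for the bad arcs -/
theorem num_bad {b : ℝ} (hb : 1 ≤ b) : ∃ C : ℝ, 1 ≤ C ∧ ∀ (X N W : ℝ), 1 ≤ X → 1 ≤ N → X ^ (1 / 10 : ℝ) ≤ N → N ≤ X ^ (4 / 9 + 1 / 1000 : ℝ) → 0 ≤ W → W ^ 5 * (X * N) ≤ b →
      X * ((N ^ 2 * W + N) ^ 7 * (N ^ 2 * W + N ^ 2) ^ 2 * (1 + N ^ 3 / X)) ≤ C * FR X N := by
  have hb0 : 0 < b := by linarith
  have b1 : ∀ n : ℕ, 1 ≤ b ^ n := fun n => one_le_pow₀ hb
  have hC1 : 1 ≤ (1 + b) ^ 2 := one_le_pow₀ (by linarith)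
  refine ⟨64 * (1 + b) ^ 2 * b ^ 7 * 4, ?_, ?_⟩
  · have h1 : 1 ≤ (1 + b) ^ 2 * b ^ 7 := one_le_mul_of_one_le_of_one_le hC1 (b1 7)
    linarith
  intro X N w hX hN hlo hNX hw hw2
  have hN0 : 0 < N := by linarith
  have hX0 : 0 < X := by linarith
  have lX : 0 ≤ log X := log_nonneg hX
  have lN : 0 ≤ log N := log_nonneg hN
  have lNX : log N ≤ (4 / 9 + 1 / 1000) * log X := by
    have := log_le_log hN0 hNX
    rwa [log_rpow hX0] at this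
  have hF1 := F77_one hX hN
  have hF0 : 0 ≤ F77 X N := by linarith
  have hFR : FR X N = X * F77 X N := rfl
  set F := F77 X N with hFdef
  have hK0 : 0 < X * N := by positivity
  have hK1 : 1 ≤ X * N := one_le_mul_of_one_le_of_one_le hX hN
  set L : ℝ := N ^ (-(1 / 5) : ℝ) * X ^ (-(1 / 5) : ℝ) with hL
  have hL0 : 0 < L := by positivity
  have hL4 : L ^ 5 * (X * N) = 1 := by
    have h1 : (N ^ (-(1 / 5) : ℝ)) ^ 5 = N⁻¹ := by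
      rw [← rpow_natCast, ← rpow_mul hN0.le]
      norm_num
      rw [rpow_neg_one]
    have h2 : (X ^ (-(1 / 5) : ℝ)) ^ 5 = X⁻¹ := by
      rw [← rpow_natCast, ← rpow_mul hX0.le]
      norm_num
      rw [rpow_neg_one]
    rw [hL, mul_pow, h1, h2]
    field_simp
  have hwL : w ≤ b * L := by
    by_contra hc
    push Not at hc
    have h1 : (b * L) ^ 5 < w ^ 5 := pow_lt_pow_left₀ hc (by positivity) (by norm_num)
    have h2 : b ^ 5 < w ^ 5 * (X * N) := by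
      calc b ^ 5 = (b * L) ^ 5 * (X * N) := by rw [mul_pow, mul_assoc, hL4, mul_one]
        _ < w ^ 5 * (X * N) := by gcongr
    have h3 : b ≤ b ^ 5 := le_self_pow₀ hb (by norm_num)
    linarith
  have hwb : w ≤ b := by
    by_contra hc
    push Not at hc
    have h1 : b ^ 5 < w ^ 5 := pow_lt_pow_left₀ hc hb0.le (by norm_num)
    have h3 : b ≤ b ^ 5 := le_self_pow₀ hb (by norm_num)
    have h4 : w ^ 5 ≤ w ^ 5 * (X * N) := le_mul_of_one_le_right (by positivity) hK1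
    linarith
  have key : ∀ a c : ℝ, (a * log N + c * log X ≤ 12 * log N ∨ a * log N + c * log X ≤ 15 * log N - 1 / 3 * log X) →
      N ^ a * X ^ c ≤ F := fun a c h => mono77 hX hN h
  have hd : 1 + N ^ 3 / X = 1 + N ^ (3 : ℝ) * X ^ (-1 : ℝ) := by
    rw [rpow_neg_one]
    congr 1
    rw [div_eq_mul_inv]
    congr 1
    exact_mod_cast (rpow_natCast N 3).symm
  have hd0 : 0 ≤ 1 + N ^ 3 / X := by positivity
  have g1 : (N ^ 2 * w + N) ^ 7 ≤ 64 * b ^ 7 * ((N ^ 2 * L) ^ 7 + N ^ 7) := by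
    have h1 : (N ^ 2 * w + N) ^ 7 ≤ 2 ^ (7 - 1) * ((N ^ 2 * w) ^ 7 + N ^ 7) := add_pow_le (by positivity) hN0.le 7
    have h2 : (N ^ 2 * w) ^ 7 ≤ b ^ 7 * (N ^ 2 * L) ^ 7 := by
      rw [← mul_pow]
      apply pow_le_pow_left₀ (by positivity)
      calc N ^ 2 * w ≤ N ^ 2 * (b * L) := by gcongr
        _ = b * (N ^ 2 * L) := by ring
    have h3 : N ^ 7 ≤ b ^ 7 * N ^ 7 := le_mul_of_one_le_left (by positivity) (b1 7)
    norm_num at h1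
    linarith
  have g2 : (N ^ 2 * w + N ^ 2) ^ 2 ≤ (1 + b) ^ 2 * N ^ 4 := by
    calc (N ^ 2 * w + N ^ 2) ^ 2 ≤ (N ^ 2 * b + N ^ 2) ^ 2 := by gcongr
      _ = (1 + b) ^ 2 * N ^ 4 := by ring
  have e1 : N ^ 4 * (N ^ 2 * L) ^ 7 = N ^ (83 / 5 : ℝ) * X ^ (-(7 / 5) : ℝ) := by
    rw [hL, rw77 hN0, rwp77 hX0 hN0, rw77 hN0]
    norm_num
  have e2 : N ^ 4 * (N ^ 2 * L) ^ 7 * (N ^ (3 : ℝ) * X ^ (-1 : ℝ)) = N ^ (98 / 5 : ℝ) * X ^ (-(12 / 5) : ℝ) := by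
    rw [e1, rwm77 hX0 hN0]
    norm_num
  have e3 : N ^ 4 * N ^ 7 = N ^ (11 : ℝ) * X ^ (0 : ℝ) := by
    rw [← pow_add, rpow_zero, mul_one]
    exact_mod_cast (rpow_natCast N 11).symm
  have e4 : N ^ 4 * N ^ 7 * (N ^ (3 : ℝ) * X ^ (-1 : ℝ)) = N ^ (14 : ℝ) * X ^ (-1 : ℝ) := by
    rw [e3, rwm77 hX0 hN0]
    norm_num
  have k1 := key (83 / 5) (-(7 / 5)) (Or.inr (by linarith))
  have k2 := key (98 / 5) (-(12 / 5)) (Or.inr (by linarith))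
  have k3 := key 11 0 (Or.inl (by linarith))
  have k4 := key 14 (-1) (Or.inr (by linarith))
  rw [← e1] at k1
  rw [← e2] at k2
  rw [← e3] at k3
  rw [← e4] at k4
  have fin : (N ^ 2 * w + N) ^ 7 * (N ^ 2 * w + N ^ 2) ^ 2 * (1 + N ^ 3 / X) ≤ 64 * (1 + b) ^ 2 * b ^ 7 * 4 * F := by
    calc (N ^ 2 * w + N) ^ 7 * (N ^ 2 * w + N ^ 2) ^ 2 * (1 + N ^ 3 / X)
        ≤ (64 * b ^ 7 * ((N ^ 2 * L) ^ 7 + N ^ 7)) * ((1 + b) ^ 2 * N ^ 4) * (1 + N ^ 3 / X) := by gcongr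
      _ = 64 * (1 + b) ^ 2 * b ^ 7 * (N ^ 4 * (N ^ 2 * L) ^ 7 + N ^ 4 * (N ^ 2 * L) ^ 7 * (N ^ (3 : ℝ) * X ^ (-1 : ℝ)) +
          N ^ 4 * N ^ 7 + N ^ 4 * N ^ 7 * (N ^ (3 : ℝ) * X ^ (-1 : ℝ))) := by
        rw [hd]
        ring
      _ ≤ 64 * (1 + b) ^ 2 * b ^ 7 * (F + F + F + F) := by gcongr
      _ = 64 * (1 + b) ^ 2 * b ^ 7 * 4 * F := by ring
  rw [hFR]
  calc X * ((N ^ 2 * w + N) ^ 7 * (N ^ 2 * w + N ^ 2) ^ 2 * (1 + N ^ 3 / X)) ≤ X * (64 * (1 + b) ^ 2 * b ^ 7 * 4 * F) := by gcongr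
    _ = 64 * (1 + b) ^ 2 * b ^ 7 * 4 * (X * F) := by ring

private theorem min_mul77 {u v : ℝ} (hu : 0 ≤ u) (hv : 0 ≤ v) (i j : ℕ) : min u v ^ (i + j) ≤ u ^ i * v ^ j := by
  have h0 : 0 ≤ min u v := le_min hu hv
  rw [pow_add]
  exact mul_le_mul (pow_le_pow_left₀ h0 (min_le_left _ _) _) (pow_le_pow_left₀ h0 (min_le_right _ _) _) (by positivity) (by positivity)

/-- the part with the sixth power of the minimum -/
private theorem six77 {N w lam A : ℝ} (hN : 0 < N) (hw : 0 < w) (hl : 0 < lam) (hA : 1 ≤ A) :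
    min (A ^ 2 * lam) (lam / w) ^ 6 * (((N ^ 2 * w) ^ 7 + (N / A) ^ 7) * ((N ^ 2 * w) ^ 2 + ((N / A) ^ 2) ^ 2)) ≤
      2 * (N ^ 18 * (lam ^ 6 * w ^ 3)) + 2 * (N ^ 11 * (lam ^ 6 / w)) := by
  have hA0 : 0 < A := by linarith
  have hu : 0 ≤ A ^ 2 * lam := by positivity
  have hv : 0 ≤ lam / w := by positivity
  set m := min (A ^ 2 * lam) (lam / w) with hm
  have m1 : m ^ 6 ≤ (A ^ 2 * lam) ^ 0 * (lam / w) ^ 6 := min_mul77 hu hv 0 6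
  have m2 : m ^ 6 ≤ (A ^ 2 * lam) ^ 2 * (lam / w) ^ 4 := min_mul77 hu hv 2 4
  have m3 : m ^ 6 ≤ (A ^ 2 * lam) ^ 3 * (lam / w) ^ 3 := min_mul77 hu hv 3 3
  have m4 : m ^ 6 ≤ (A ^ 2 * lam) ^ 5 * (lam / w) ^ 1 := min_mul77 hu hv 5 1
  have q1 : m ^ 6 * ((N ^ 2 * w) ^ 7 * (N ^ 2 * w) ^ 2) ≤ N ^ 18 * (lam ^ 6 * w ^ 3) := by
    calc m ^ 6 * ((N ^ 2 * w) ^ 7 * (N ^ 2 * w) ^ 2) ≤ ((A ^ 2 * lam) ^ 0 * (lam / w) ^ 6) * ((N ^ 2 * w) ^ 7 * (N ^ 2 * w) ^ 2) := by gcongr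
      _ = N ^ 18 * (lam ^ 6 * w ^ 3) := by
        rw [div_pow]
        field_simp
  have q2 : m ^ 6 * ((N ^ 2 * w) ^ 7 * ((N / A) ^ 2) ^ 2) ≤ N ^ 18 * (lam ^ 6 * w ^ 3) := by
    calc m ^ 6 * ((N ^ 2 * w) ^ 7 * ((N / A) ^ 2) ^ 2) ≤ ((A ^ 2 * lam) ^ 2 * (lam / w) ^ 4) * ((N ^ 2 * w) ^ 7 * ((N / A) ^ 2) ^ 2) := by gcongr
      _ = N ^ 18 * (lam ^ 6 * w ^ 3) := by
        field_simp
  have inv1 : N ^ 11 * (lam ^ 6 / w) / A ≤ N ^ 11 * (lam ^ 6 / w) := div_le_self (by positivity) hA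
  have q3 : m ^ 6 * ((N / A) ^ 7 * (N ^ 2 * w) ^ 2) ≤ N ^ 11 * (lam ^ 6 / w) := by
    calc m ^ 6 * ((N / A) ^ 7 * (N ^ 2 * w) ^ 2) ≤ ((A ^ 2 * lam) ^ 3 * (lam / w) ^ 3) * ((N / A) ^ 7 * (N ^ 2 * w) ^ 2) := by gcongr
      _ = N ^ 11 * (lam ^ 6 / w) / A := by
        field_simp
      _ ≤ _ := inv1
  have q4 : m ^ 6 * ((N / A) ^ 7 * ((N / A) ^ 2) ^ 2) ≤ N ^ 11 * (lam ^ 6 / w) := by
    calc m ^ 6 * ((N / A) ^ 7 * ((N / A) ^ 2) ^ 2) ≤ ((A ^ 2 * lam) ^ 5 * (lam / w) ^ 1) * ((N / A) ^ 7 * ((N / A) ^ 2) ^ 2) := by gcongr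
      _ = N ^ 11 * (lam ^ 6 / w) / A := by
        field_simp
      _ ≤ _ := inv1
  calc m ^ 6 * (((N ^ 2 * w) ^ 7 + (N / A) ^ 7) * ((N ^ 2 * w) ^ 2 + ((N / A) ^ 2) ^ 2)) =
      m ^ 6 * ((N ^ 2 * w) ^ 7 * (N ^ 2 * w) ^ 2) + m ^ 6 * ((N ^ 2 * w) ^ 7 * ((N / A) ^ 2) ^ 2) +
      m ^ 6 * ((N / A) ^ 7 * (N ^ 2 * w) ^ 2) + m ^ 6 * ((N / A) ^ 7 * ((N / A) ^ 2) ^ 2) := by ring
    _ ≤ 2 * (N ^ 18 * (lam ^ 6 * w ^ 3)) + 2 * (N ^ 11 * (lam ^ 6 / w)) := by linarith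

/-- the numerical inequality of case B; `K = X N`, `K^(-1/5) ≤ λ ≤ K^(-1/8)`, `K^(-1/4) ≤ w ≤ (λ² K)^(-1/3)` up to constants -/
theorem num_B {b : ℝ} (hb : 1 ≤ b) : ∃ C : ℝ, 1 ≤ C ∧ ∀ (X N w lam A : ℝ), 1 ≤ X → 1 ≤ N → X ^ (1 / 10 : ℝ) ≤ N → N ≤ X ^ (4 / 9 + 1 / 1000 : ℝ) → 0 < w → w ≤ b * lam → 1 ≤ b * (lam ^ 5 * (X * N)) → lam ^ 8 * (X * N) ≤ b →
    1 ≤ b * (w ^ 4 * (X * N)) → w ^ 3 * (lam ^ 2 * (X * N)) ≤ b → 0 < lam → 1 ≤ A →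
      X * ((min (1 + A ^ 2 * lam) (1 + lam / w)) ^ 6 * ((N ^ 2 * w + N / A) ^ 7 * (N ^ 2 * w + (N / A) ^ 2) ^ 2 * (1 + N ^ 3 / X))) ≤ C * FR X N := by
  have hb0 : 0 < b := by linarith
  obtain ⟨C₁, hC₁, hbad⟩ := num_bad (b := b ^ 3) (one_le_pow₀ hb)
  refine ⟨32 * C₁ + 32 * 128 * (4 * b ^ 5 + 4 * b ^ 7), ?_, ?_⟩
  · have : 0 ≤ 32 * 128 * (4 * b ^ 5 + 4 * b ^ 7) := by positivity
    linarith
  intro X N w lam A hX hN hlo hNX hw hwl hl5 hl8 hw4 hw3 hl hA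
  have hA0 : 0 < A := by linarith
  have hN0 : 0 < N := by linarith
  have hX0 : 0 < X := by linarith
  have lX : 0 ≤ log X := log_nonneg hX
  have lN : 0 ≤ log N := log_nonneg hN
  have lNX : log N ≤ (4 / 9 + 1 / 1000) * log X := by
    have := log_le_log hN0 hNX
    rwa [log_rpow hX0] at this
  have hF1 := F77_one hX hN
  have hF0 : 0 ≤ F77 X N := by linarith
  have hFR : FR X N = X * F77 X N := rfl
  have key : ∀ a c : ℝ, (a * log N + c * log X ≤ 12 * log N ∨ a * log N + c * log X ≤ 15 * log N - 1 / 3 * log X) →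
      N ^ a * X ^ c ≤ F77 X N := fun a c h => mono77 hX hN h
  set F := F77 X N with hFdef
  have hK0 : 0 < X * N := by positivity
  have hK1 : 1 ≤ X * N := one_le_mul_of_one_le_of_one_le hX hN
  -- `w ^ 5 K ≤ b ^ 3`
  have hw5 : w ^ 5 * (X * N) ≤ b ^ 3 := by
    calc w ^ 5 * (X * N) = w ^ 3 * (w ^ 2 * (X * N)) := by ring
      _ ≤ w ^ 3 * ((b * lam) ^ 2 * (X * N)) := by gcongr
      _ = b ^ 2 * (w ^ 3 * (lam ^ 2 * (X * N))) := by ring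
      _ ≤ b ^ 2 * b := by gcongr
      _ = b ^ 3 := by ring
  have hbw := hbad X N w hX hN hlo hNX hw.le hw5
  -- `L = K ^ (-1/8)`
  set L : ℝ := N ^ (-(1 / 8) : ℝ) * X ^ (-(1 / 8) : ℝ) with hL
  have hL0 : 0 < L := by positivity
  have hL8 : L ^ 8 * (X * N) = 1 := by
    have h1 : (N ^ (-(1 / 8) : ℝ)) ^ 8 = N⁻¹ := by
      rw [← rpow_natCast, ← rpow_mul hN0.le]
      norm_num
      rw [rpow_neg_one]
    have h2 : (X ^ (-(1 / 8) : ℝ)) ^ 8 = X⁻¹ := by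
      rw [← rpow_natCast, ← rpow_mul hX0.le]
      norm_num
      rw [rpow_neg_one]
    rw [hL, mul_pow, h1, h2]
    field_simp
  have hL1 : L ≤ 1 := by
    by_contra hc
    push Not at hc
    have h1 : 1 < L ^ 8 := one_lt_pow₀ hc (by norm_num)
    have h2 : L ^ 8 ≤ L ^ 8 * (X * N) := le_mul_of_one_le_right (by positivity) hK1
    linarith
  have hlL : lam ≤ b * L := by
    by_contra hc
    push Not at hc
    have h1 : (b * L) ^ 8 < lam ^ 8 := pow_lt_pow_left₀ hc (by positivity) (by norm_num)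
    have h2 : b ^ 8 < lam ^ 8 * (X * N) := by
      calc b ^ 8 = (b * L) ^ 8 * (X * N) := by rw [mul_pow, mul_assoc, hL8, mul_one]
        _ < lam ^ 8 * (X * N) := by gcongr
    have h3 : b ≤ b ^ 8 := le_self_pow₀ hb (by norm_num)
    linarith
  have hLw : L ^ 2 ≤ b * w := by
    by_contra hc
    push Not at hc
    have h1 : (b * w) ^ 4 < (L ^ 2) ^ 4 := pow_lt_pow_left₀ hc (by positivity) (by norm_num)
    have h2 : (b * w) ^ 4 * (X * N) < 1 := by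
      calc (b * w) ^ 4 * (X * N) < (L ^ 2) ^ 4 * (X * N) := by gcongr
        _ = 1 := by rw [← pow_mul]; exact hL8
    have h3 : b ≤ b ^ 4 := le_self_pow₀ hb (by norm_num)
    have h4 : b * (w ^ 4 * (X * N)) ≤ (b * w) ^ 4 * (X * N) := by
      calc b * (w ^ 4 * (X * N)) ≤ b ^ 4 * (w ^ 4 * (X * N)) := by gcongr
        _ = _ := by ring
    linarith
  -- `lam ^ 6 w ^ 3 ≤ b ^ 5 K ^ (-3/2)`
  have t1 : lam ^ 6 * w ^ 3 ≤ b ^ 5 * L ^ 12 := by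
    have h1 : lam ^ 6 * w ^ 3 * (X * N) ≤ b ^ 5 * L ^ 12 * (X * N) := by
      calc lam ^ 6 * w ^ 3 * (X * N) = lam ^ 4 * (w ^ 3 * (lam ^ 2 * (X * N))) := by ring
        _ ≤ (b * L) ^ 4 * b := by gcongr
        _ = b ^ 5 * L ^ 4 * (L ^ 8 * (X * N)) := by rw [hL8]; ring
        _ = b ^ 5 * L ^ 12 * (X * N) := by ring
    exact le_of_mul_le_mul_right h1 hK0
  have t2 : lam ^ 6 / w ≤ b ^ 7 := by
    rw [div_le_iff₀ hw]
    calc lam ^ 6 ≤ (b * L) ^ 6 := by gcongr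
      _ = b ^ 6 * L ^ 4 * L ^ 2 := by ring
      _ ≤ b ^ 6 * 1 * (b * w) := by
        have : L ^ 4 ≤ 1 := pow_le_one₀ hL0.le hL1
        gcongr
      _ = b ^ 7 * w := by ring
  have hd : 1 + N ^ 3 / X = 1 + N ^ (3 : ℝ) * X ^ (-1 : ℝ) := by
    rw [rpow_neg_one]
    congr 1
    rw [div_eq_mul_inv]
    congr 1
    exact_mod_cast (rpow_natCast N 3).symm
  have hd0 : 0 ≤ 1 + N ^ 3 / X := by positivity
  have e1 : N ^ 18 * L ^ 12 = N ^ (33 / 2 : ℝ) * X ^ (-(3 / 2) : ℝ) := by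
    rw [hL, rwp77 hX0 hN0, rw77 hN0]
    norm_num
  have e2 : N ^ 18 * L ^ 12 * (N ^ (3 : ℝ) * X ^ (-1 : ℝ)) = N ^ (39 / 2 : ℝ) * X ^ (-(5 / 2) : ℝ) := by
    rw [e1, rwm77 hX0 hN0]
    norm_num
  have e3 : N ^ 11 = N ^ (11 : ℝ) * X ^ (0 : ℝ) := by
    rw [rpow_zero, mul_one]
    exact_mod_cast (rpow_natCast N 11).symm
  have e4 : N ^ 11 * (N ^ (3 : ℝ) * X ^ (-1 : ℝ)) = N ^ (14 : ℝ) * X ^ (-1 : ℝ) := by
    rw [e3, rwm77 hX0 hN0]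
    norm_num
  have k1 := key (33 / 2) (-(3 / 2)) (Or.inr (by linarith))
  have k2 := key (39 / 2) (-(5 / 2)) (Or.inr (by linarith))
  have k3 := key 11 0 (Or.inl (by linarith))
  have k4 := key 14 (-1) (Or.inr (by linarith))
  rw [← e1] at k1
  rw [← e2] at k2
  rw [← e3] at k3
  rw [← e4] at k4
  set m := min (A ^ 2 * lam) (lam / w) with hm
  have hm0 : 0 ≤ m := le_min (by positivity) (by positivity)
  have hmin : min (1 + A ^ 2 * lam) (1 + lam / w) = 1 + m := by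
    rw [hm, ← min_add_add_left]
  have hm6 : (1 + m) ^ 6 ≤ 32 * (1 + m ^ 6) := by
    have h1 : (1 + m) ^ 6 ≤ 2 ^ (6 - 1) * (1 ^ 6 + m ^ 6) := add_pow_le zero_le_one hm0 6
    norm_num at h1
    linarith
  set R := (N ^ 2 * w + N / A) ^ 7 * (N ^ 2 * w + (N / A) ^ 2) ^ 2 with hR
  have hR0 : 0 ≤ R := by positivity
  have hNA : N / A ≤ N := div_le_self hN0.le hA
  have hRb : R * (1 + N ^ 3 / X) ≤ (N ^ 2 * w + N) ^ 7 * (N ^ 2 * w + N ^ 2) ^ 2 * (1 + N ^ 3 / X) := by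
    rw [hR]
    have h0 : 0 ≤ N / A := by positivity
    gcongr
  have hR2 : R ≤ 128 * (((N ^ 2 * w) ^ 7 + (N / A) ^ 7) * ((N ^ 2 * w) ^ 2 + ((N / A) ^ 2) ^ 2)) := by
    have h1 : (N ^ 2 * w + N / A) ^ 7 ≤ 2 ^ (7 - 1) * ((N ^ 2 * w) ^ 7 + (N / A) ^ 7) := add_pow_le (by positivity) (by positivity) 7
    have h2 : (N ^ 2 * w + (N / A) ^ 2) ^ 2 ≤ 2 ^ (2 - 1) * ((N ^ 2 * w) ^ 2 + ((N / A) ^ 2) ^ 2) := add_pow_le (by positivity) (by positivity) 2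
    calc R ≤ (2 ^ (7 - 1) * ((N ^ 2 * w) ^ 7 + (N / A) ^ 7)) * (2 ^ (2 - 1) * ((N ^ 2 * w) ^ 2 + ((N / A) ^ 2) ^ 2)) := by
          rw [hR]
          gcongr
      _ = _ := by ring
  have hsix := six77 hN0 hw hl hA
  rw [← hm] at hsix
  have hmR : m ^ 6 * R * (1 + N ^ 3 / X) ≤ 128 * (4 * b ^ 5 + 4 * b ^ 7) * F := by
    calc m ^ 6 * R * (1 + N ^ 3 / X) ≤ m ^ 6 * (128 * (((N ^ 2 * w) ^ 7 + (N / A) ^ 7) * ((N ^ 2 * w) ^ 2 + ((N / A) ^ 2) ^ 2))) * (1 + N ^ 3 / X) := by gcongr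
      _ = 128 * (m ^ 6 * (((N ^ 2 * w) ^ 7 + (N / A) ^ 7) * ((N ^ 2 * w) ^ 2 + ((N / A) ^ 2) ^ 2))) * (1 + N ^ 3 / X) := by ring
      _ ≤ 128 * (2 * (N ^ 18 * (lam ^ 6 * w ^ 3)) + 2 * (N ^ 11 * (lam ^ 6 / w))) * (1 + N ^ 3 / X) := by gcongr
      _ ≤ 128 * (2 * (N ^ 18 * (b ^ 5 * L ^ 12)) + 2 * (N ^ 11 * b ^ 7)) * (1 + N ^ 3 / X) := by gcongr
      _ = 128 * (2 * b ^ 5 * (N ^ 18 * L ^ 12 + N ^ 18 * L ^ 12 * (N ^ (3 : ℝ) * X ^ (-1 : ℝ))) +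
          2 * b ^ 7 * (N ^ 11 + N ^ 11 * (N ^ (3 : ℝ) * X ^ (-1 : ℝ)))) := by
        rw [hd]
        ring
      _ ≤ 128 * (2 * b ^ 5 * (F + F) + 2 * b ^ 7 * (F + F)) := by gcongr
      _ = 128 * (4 * b ^ 5 + 4 * b ^ 7) * F := by ring
  rw [hmin]
  calc X * ((1 + m) ^ 6 * (R * (1 + N ^ 3 / X))) ≤ X * ((32 * (1 + m ^ 6)) * (R * (1 + N ^ 3 / X))) := by gcongr
    _ = 32 * (X * (R * (1 + N ^ 3 / X))) + 32 * (X * (m ^ 6 * R * (1 + N ^ 3 / X))) := by ring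
    _ ≤ 32 * (X * ((N ^ 2 * w + N) ^ 7 * (N ^ 2 * w + N ^ 2) ^ 2 * (1 + N ^ 3 / X))) + 32 * (X * (128 * (4 * b ^ 5 + 4 * b ^ 7) * F)) := by gcongr
    _ ≤ 32 * (C₁ * FR X N) + 32 * (X * (128 * (4 * b ^ 5 + 4 * b ^ 7) * F)) := by gcongr
    _ = (32 * C₁ + 32 * 128 * (4 * b ^ 5 + 4 * b ^ 7)) * FR X N := by
      rw [hFR]
      ring

end Pool.Agent.Helper60.GM
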